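import Pool.Agent.Helper53.CTG.Goals

/-!
# PROJECT CTG (MP_8b4d68_lc), packet LNX (helper50): the machine is a linear space machine

As `Helper66/CTR/LNX.lean`.
-/

set_option autoImplicit false

namespace Pool.Agent.Helper50.CTG

open Pool.Agent.Helper53.CTG
open Pool.Agent.Helper1.TE (cif GoalLSD GoalLCT GoalLCF)
open Pool.Agent.Helper65.LinSpace (dig tab nrec ifz eq01 le01 lt01 capPow Ctx LS)
open Finset

section proj

variable {α : Type} [Ctx α] {f : α → Sta}

theorem ls_mo (hf : LS f) : LS (fun a => (f a).mo) := by unfold Sta.mo; fun_prop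
theorem ls_N (hf : LS f) : LS (fun a => (f a).N) := by unfold Sta.N; fun_prop
theorem ls_q (hf : LS f) : LS (fun a => (f a).q) := by unfold Sta.q; fun_prop
theorem ls_b (hf : LS f) : LS (fun a => (f a).b) := by unfold Sta.b; fun_prop
theorem ls_c (hf : LS f) : LS (fun a => (f a).c) := by unfold Sta.c; fun_prop
theorem ls_u (hf : LS f) : LS (fun a => (f a).u) := by unfold Sta.u; fun_prop
theorem ls_W (hf : LS f) : LS (fun a => (f a).W) := by unfold Sta.W; fun_prop
theorem ls_τ (hf : LS f) : LS (fun a => (f a).τ) := by unfold Sta.τ; fun_prop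
theorem ls_g (hf : LS f) : LS (fun a => (f a).g) := by unfold Sta.g; fun_prop
theorem ls_t (hf : LS f) : LS (fun a => (f a).t) := by unfold Sta.t; fun_prop
theorem ls_D (hf : LS f) : LS (fun a => (f a).D) := by unfold Sta.D; fun_prop
theorem ls_X (hf : LS f) : LS (fun a => (f a).X) := by unfold Sta.X; fun_prop
theorem ls_S (hf : LS f) : LS (fun a => (f a).S) := by unfold Sta.S; fun_prop
theorem ls_A (hf : LS f) : LS (fun a => (f a).A) := by unfold Sta.A; fun_prop

theorem ls_hdr {m N q b c u W : α → ℕ} (h1 : LS m) (h2 : LS N) (h3 : LS q) (h4 : LS b)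
    (h5 : LS c) (h6 : LS u) (h7 : LS W) :
    LS (fun a => hdr (m a) (N a) (q a) (b a) (c a) (u a) (W a)) := by
  unfold hdr
  fun_prop

theorem ls_mainS {N q b c u W τ g t X S A : α → ℕ} {D : α → De} (h1 : LS N) (h2 : LS q)
    (h3 : LS b) (h4 : LS c) (h5 : LS u) (h6 : LS W) (h7 : LS τ) (h8 : LS g) (h9 : LS t)
    (h10 : LS D) (h11 : LS X) (h12 : LS S) (h13 : LS A) :
    LS (fun a => mainS (N a) (q a) (b a) (c a) (u a) (W a) (τ a) (g a) (t a) (D a) (X a) (S a)
      (A a)) := by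
  unfold mainS
  fun_prop

theorem ls_bigIn {N q b c W G w X S A : α → ℕ} {D : α → De} (h1 : LS N) (h2 : LS q)
    (h3 : LS b) (h4 : LS c) (h5 : LS W) (h6 : LS D) (h7 : LS G) (h8 : LS w)
    (h10 : LS X) (h11 : LS S) (h12 : LS A) :
    LS (fun z => (((N z, q z, b z, c z, W z), D z, (G z, w z), (X z, S z, A z)) :
      BigIn)) := by
  fun_prop

end proj

theorem gLNX : GoalLNX := by
  intro hCF hLN hSD hCT hSUB hBG ok tst mal hok htst
  obtain ⟨nEt, -, -, nNt, -⟩ := hLN hSD hCT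
  obtain ⟨bT, bX, bS, bA, bB⟩ := hBG hLN hSD hCT
  obtain ⟨sS, sR⟩ := hSUB hCF
  refine ⟨?_, ?_, ?_⟩
  · change LS addrM
    have i0 : LS (fun x : Sta => x) := LS.id
    have e1 := ls_mo i0
    have e2 := ls_N i0
    have e3 := ls_q i0
    have e4 := ls_b i0
    have e5 := ls_c i0
    have e6 := ls_u i0
    have e7 := ls_W i0
    have e8 := ls_g i0
    have e9 := ls_D i0
    have e10 := ls_A i0
    have e11 : LS (fun x : Sta => Nt x.N x.q) := by
      have := nNt.comp (e2.prodMk e3)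
      exact this
    have zero : LS (fun _ : Sta => (0 : ℕ)) := LS.const 0
    have eB : LS (fun x : Sta => blkM x.b x.c x.W x.D x.A x.g) := by
      have := bB.comp (ls_bigIn zero zero e4 e5 e7 e9 e8 zero zero zero e10)
      exact this
    unfold addrM
    refine LS.ifz e1 e2 (LS.ifz (e1.sub (LS.const 1)) ?_ (LS.ifz (e1.sub (LS.const 2)) ?_
      (LS.ifz (e1.sub (LS.const 3)) ?_ (LS.ifz (e1.sub (LS.const 4)) e7 ?_))))
    · exact (e2.succ).add e3
    · exact ((e2.add e3).add (LS.const 2)).add e4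
    · exact (((e2.add e3).add e4).add (LS.const 3)).add e5
    · exact (((((e2.add e3).add e4).add e5).add (LS.const 4)).add (eB.mul e4)).add
        (e6.sub (e11.add ((LS.const 3).mul e4)))
  · change LS (fun p : Sta × ℕ × ℕ => nextM ok tst mal p.1 p.2.1 p.2.2)
    have i0 : LS (fun p : Sta × ℕ × ℕ => p.1) := LS.fst
    have iy : LS (fun p : Sta × ℕ × ℕ => p.2.1) := by fun_prop
    have ig : LS (fun p : Sta × ℕ × ℕ => p.2.2) := by fun_prop
    have e1 := ls_mo i0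
    have e2 := ls_N i0
    have e3 := ls_q i0
    have e4 := ls_b i0
    have e5 := ls_c i0
    have e6 := ls_u i0
    have e7 := ls_W i0
    have e8 := ls_τ i0
    have e9 := ls_g i0
    have e10 := ls_t i0
    have e11 := ls_D i0
    have e12 := ls_X i0
    have e13 := ls_S i0
    have e14 := ls_A i0
    have eN : LS (fun p : Sta × ℕ × ℕ => Nt p.1.N p.1.q) := by
      have := nNt.comp (e2.prodMk e3)
      exact this
    have eE : LS (fun p : Sta × ℕ × ℕ => Et p.1.N p.1.q p.1.b p.1.c) := by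
      have := nEt.comp (e2.prodMk (e3.prodMk (e4.prodMk e5)))
      exact this
    have zero : LS (fun _ : Sta × ℕ × ℕ => (0 : ℕ)) := LS.const 0
    have one : LS (fun _ : Sta × ℕ × ℕ => (1 : ℕ)) := LS.const 1
    have two : LS (fun _ : Sta × ℕ × ℕ => (2 : ℕ)) := LS.const 2
    have three : LS (fun _ : Sta × ℕ × ℕ => (3 : ℕ)) := LS.const 3
    have four : LS (fun _ : Sta × ℕ × ℕ => (4 : ℕ)) := LS.const 4
    have rej : LS (fun _ : Sta × ℕ × ℕ => rejS) := LS.const rejS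
    have acc : LS (fun _ : Sta × ℕ × ℕ => accS) := LS.const accS
    have mlS : LS (fun _ : Sta × ℕ × ℕ => malS mal) := LS.const (malS mal)
    have eR : LS (fun p : Sta × ℕ × ℕ => root p.1.N p.1.q) := by
      have := sR.comp (e2.prodMk e3)
      exact this
    -- mode 0
    have m0 : LS (fun p : Sta × ℕ × ℕ => cif p.2.1 (malS mal)
        (cif (p.2.1 - 1) (hdr 1 p.1.N 0 0 0 0 0) (hdr 0 (p.1.N + 1) 0 0 0 0 0))) := by
      refine hCF _ _ _ iy mlS (hCF _ _ _ (iy.sub one) ?_ ?_)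
      · exact ls_hdr one e2 zero zero zero zero zero
      · exact ls_hdr zero e2.succ zero zero zero zero zero
    -- mode 1
    have m1 : LS (fun p : Sta × ℕ × ℕ => cif p.2.1 (malS mal)
        (cif (p.2.1 - 1) (hdr 2 p.1.N p.1.q 0 0 0 0) (hdr 1 p.1.N (p.1.q + 1) 0 0 0 0))) := by
      refine hCF _ _ _ iy mlS (hCF _ _ _ (iy.sub one) ?_ ?_)
      · exact ls_hdr two e2 e3 zero zero zero zero
      · exact ls_hdr one e2 e3.succ zero zero zero zero
    -- mode 2
    have m2 : LS (fun p : Sta × ℕ × ℕ => cif p.2.1 (malS mal)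
        (cif (p.2.1 - 1) (hdr 3 p.1.N p.1.q p.1.b 0 0 0)
          (hdr 2 p.1.N p.1.q (p.1.b + 1) 0 0 0))) := by
      refine hCF _ _ _ iy mlS (hCF _ _ _ (iy.sub one) ?_ ?_)
      · exact ls_hdr three e2 e3 e4 zero zero zero
      · exact ls_hdr two e2 e3 e4.succ zero zero zero
    -- mode 3
    have hok' : LS (fun p : Sta × ℕ × ℕ => ok p.1.N p.1.q p.1.b p.1.c) := by
      have := hok.comp (e2.prodMk (e3.prodMk (e4.prodMk e5)))
      exact this
    have m3 : LS (fun p : Sta × ℕ × ℕ => cif p.2.1 (malS mal)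
        (cif (p.2.1 - 1)
          (cif (p.1.q * le01 p.1.q p.1.N * p.1.b * le01 p.1.c p.1.b *
              ok p.1.N p.1.q p.1.b p.1.c) (malS mal)
            (hdr 4 p.1.N p.1.q p.1.b p.1.c 0 1))
          (hdr 3 p.1.N p.1.q p.1.b (p.1.c + 1) 0 0))) := by
      refine hCF _ _ _ iy mlS (hCF _ _ _ (iy.sub one) (hCF _ _ _
        ((((e3.mul (LS.le01 e3 e2)).mul e4).mul (LS.le01 e5 e4)).mul hok') mlS ?_) ?_)
      · exact ls_hdr four e2 e3 e4 e5 zero one
      · exact ls_hdr three e2 e3 e4 e5.succ zero zero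
    -- mode 4
    have m4 : LS (fun p : Sta × ℕ × ℕ => cif p.2.1 (malS mal)
        (cif (p.1.N + p.1.b - p.1.u) (hdr 5 p.1.N p.1.q p.1.b p.1.c 0 1)
          (hdr 4 p.1.N p.1.q p.1.b p.1.c (p.1.u + 1) (2 * p.1.W)))) := by
      refine hCF _ _ _ iy mlS (hCF _ _ _ ((e2.add e4).sub e6) ?_ ?_)
      · exact ls_hdr (LS.const 5) e2 e3 e4 e5 zero one
      · exact ls_hdr four e2 e3 e4 e5 e6.succ (two.mul e7)
    -- mode 5
    have m5 : LS (fun p : Sta × ℕ × ℕ => cif (Et p.1.N p.1.q p.1.b p.1.c - p.1.u)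
        (mainS p.1.N p.1.q p.1.b p.1.c 0 p.1.W 0 0 0 (root p.1.N p.1.q) 0 0 0)
        (hdr 5 p.1.N p.1.q p.1.b p.1.c (p.1.u + 1) (2 * p.1.W))) := by
      refine hCF _ _ _ (eE.sub e6) ?_ ?_
      · exact ls_mainS e2 e3 e4 e5 zero e7 zero zero zero eR zero zero zero
      · exact ls_hdr (LS.const 5) e2 e3 e4 e5 e6.succ (two.mul e7)
    -- mode 6
    have hin := ls_bigIn e2 e3 e4 e5 e7 e11 e9 e10 e12 e13 e14
    have hT' : LS (fun p : Sta × ℕ × ℕ => bigT tst p.1.b p.1.c p.1.W p.1.D p.1.g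
        p.1.t p.1.X p.1.A) := by
      have := (bT tst htst).comp hin
      exact this
    have hX' : LS (fun p : Sta × ℕ × ℕ => bigX p.1.N p.1.q p.1.b p.1.c p.1.W p.1.D
        p.1.g p.1.t p.1.X p.1.S p.1.A) := by
      have := bX.comp hin
      exact this
    have hS' : LS (fun p : Sta × ℕ × ℕ => bigS p.1.N p.1.q p.1.b p.1.c p.1.W p.1.D
        p.1.t p.1.X p.1.S p.1.A) := by
      have := bS.comp hin
      exact this
    have hA' : LS (fun p : Sta × ℕ × ℕ => bigA p.1.c p.1.W p.1.D p.1.t p.1.A) := by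
      have := bA.comp hin
      exact this
    have hdv : LS (fun p : Sta × ℕ × ℕ => (p.1.τ + 1) / 13 ^ Nt p.1.N p.1.q) :=
      LS.divPow (LS.const 13) e8.succ eN
    have hkk : LS (fun p : Sta × ℕ × ℕ => Nt p.1.N p.1.q - 1 - p.1.u) := (eN.sub one).sub e6
    have hsub : LS (fun p : Sta × ℕ × ℕ => sub p.1.q p.1.D (Nt p.1.N p.1.q - 1 - p.1.u)
        (dig 13 p.1.τ (Nt p.1.N p.1.q - 1 - p.1.u))) := by
      have := sS.comp ((e3.prodMk e11).prodMk (hkk.prodMk (LS.dig (LS.const 13) e8 hkk)))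
      exact this
    have m6 : LS (fun p : Sta × ℕ × ℕ => cif (Nt p.1.N p.1.q - p.1.u)
      (cif (Nt p.1.N p.1.q + 3 * p.1.b - p.1.u)
        (cif (Nt p.1.N p.1.q + 4 * p.1.b - p.1.u)
          (cif (bigT tst p.1.b p.1.c p.1.W p.1.D p.1.g p.1.t p.1.X p.1.A) rejS
            (cif ((p.1.τ + 1) / 13 ^ Nt p.1.N p.1.q)
              (mainS p.1.N p.1.q p.1.b p.1.c 0 p.1.W (p.1.τ + 1) 0 0 (root p.1.N p.1.q)
                (bigX p.1.N p.1.q p.1.b p.1.c p.1.W p.1.D p.1.g p.1.t p.1.X p.1.S p.1.A)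
                (bigS p.1.N p.1.q p.1.b p.1.c p.1.W p.1.D p.1.t p.1.X p.1.S p.1.A)
                (bigA p.1.c p.1.W p.1.D p.1.t p.1.A))
              accS))
          (mainS p.1.N p.1.q p.1.b p.1.c (p.1.u + 1) p.1.W p.1.τ p.1.g
            (2 * p.1.t + (p.2.1 - 1)) p.1.D p.1.X p.1.S p.1.A))
        (mainS p.1.N p.1.q p.1.b p.1.c (p.1.u + 1) p.1.W p.1.τ (2 * p.1.g + p.2.2) p.1.t p.1.D
          p.1.X p.1.S p.1.A))
      (mainS p.1.N p.1.q p.1.b p.1.c (p.1.u + 1) p.1.W p.1.τ p.1.g p.1.t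
        (sub p.1.q p.1.D (Nt p.1.N p.1.q - 1 - p.1.u)
          (dig 13 p.1.τ (Nt p.1.N p.1.q - 1 - p.1.u)))
        p.1.X p.1.S p.1.A)) := by
      refine hCF _ _ _ (eN.sub e6) (hCF _ _ _ ((eN.add (three.mul e4)).sub e6)
        (hCF _ _ _ ((eN.add (four.mul e4)).sub e6)
        (hCF _ _ _ hT' rej (hCF _ _ _ hdv ?_ acc)) ?_) ?_) ?_
      · exact ls_mainS e2 e3 e4 e5 zero e7 e8.succ zero zero eR hX' hS' hA'
      · exact ls_mainS e2 e3 e4 e5 e6.succ e7 e8 e9 ((two.mul e10).add (iy.sub one)) e11 e12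
          e13 e14
      · exact ls_mainS e2 e3 e4 e5 e6.succ e7 e8 ((two.mul e9).add ig) e10 e11 e12 e13 e14
      · exact ls_mainS e2 e3 e4 e5 e6.succ e7 e8 e9 e10 hsub e12 e13 e14
    have hN : LS (fun p : Sta × ℕ × ℕ => nextN ok tst mal p.1 p.2.1 p.2.2) := by
      unfold nextN
      exact hCF _ _ _ e1 m0 (hCF _ _ _ (e1.sub one) m1 (hCF _ _ _ (e1.sub two) m2
          (hCF _ _ _ (e1.sub three) m3 (hCF _ _ _ (e1.sub four) m4
          (hCF _ _ _ (e1.sub (LS.const 5)) m5 (hCF _ _ _ (e1.sub (LS.const 6)) m6 i0))))))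
    have hG : LS (fun p : Sta × ℕ × ℕ => gqM p.1) := by
      unfold gqM
      exact ((LS.eq01 e1 (LS.const 6)).mul (LS.le01 eN e6)).mul
        (LS.lt01 e6 (eN.add (three.mul e4)))
    unfold nextM
    exact hCF _ _ _ (ig.mul (one.sub hG)) hN (hCF _ _ _ (LS.eq01 e1 (LS.const 7)) rej i0)
  · change LS (fun x : Sta => eq01 x.mo 7)
    exact LS.eq01 (ls_mo LS.id) (LS.const 7)

end Pool.Agent.Helper50.CTG
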